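import Mathlib

set_option autoImplicit false

namespace Pool.Agent.Results.MP_28dfab_co.Counter

/-- `d_k(P)`: the largest size of a union of `k` pairwise disjoint antichains. -/
noncomputable def dk (P : Type) [PartialOrder P] (k : ℕ) : ℕ :=
  sSup {n | ∃ A : Fin k → Set P, (∀ i, IsAntichain (· ≤ ·) (A i)) ∧
    Pairwise (fun i j => Disjoint (A i) (A j)) ∧ (⋃ i, A i).ncard = n}

/-- Height: the largest size of a chain. -/
noncomputable def height (P : Type) [PartialOrder P] : ℕ :=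
  sSup {n | ∃ C : Set P, IsChain (· ≤ ·) C ∧ C.ncard = n}

/-- `d`-decomposable posets. -/
def Decomp (P : Type) [PartialOrder P] : Prop :=
  ∃ A : Fin (height P) → Set P, (∀ i, IsAntichain (· ≤ ·) (A i)) ∧
    Pairwise (fun i j => Disjoint (A i) (A j)) ∧ (⋃ i, A i) = Set.univ ∧
    ∀ k, 1 ≤ k → k ≤ height P → (⋃ i, ⋃ _ : i.1 < k, A i).ncard = dk P k

/-- Strict order of `P₆` on `x₁, x₂, x₃, y₁, y₂, y₃ = 0, …, 5`: `xᵢ < y₂` and `x₂ < yᵢ`. -/
def P6 (a b : Fin 6) : Prop := a.1 < 3 ∧ 3 ≤ b.1 ∧ (a = 1 ∨ b = 4)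

/-- `P` contains `P₆` as an induced subposet. -/
def Contains (P : Type) [PartialOrder P] : Prop :=
  ∃ f : Fin 6 → P, Function.Injective f ∧ ∀ a b, f a < f b ↔ P6 a b

def Q : Type := Fin 8

instance : Fintype Q := inferInstanceAs (Fintype (Fin 8))
instance : DecidableEq Q := inferInstanceAs (DecidableEq (Fin 8))

def ltb (a b : Fin 8) : Bool := [7, 15, 22, 23, 28, 29, 30].contains (8 * a.1 + b.1)

instance : PartialOrder Q where
  le a b := a = b ∨ ltb a b = true
  lt a b := ltb a b = true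
  le_refl _ := Or.inl rfl
  le_trans := by decide
  le_antisymm := by decide
  lt_iff_le_not_ge := by decide

instance : DecidableRel (α := Q) (· ≤ ·) := fun a b => inferInstanceAs (Decidable (a = b ∨ ltb a b = true))
instance : DecidableRel (α := Q) (· < ·) := fun a b => inferInstanceAs (Decidable (ltb a b = true))

def q (i : Fin 8) : Q := i

theorem bdd (S : Set ℕ) (h : ∀ n ∈ S, ∃ C : Set Q, C.ncard = n) : BddAbove S :=
  ⟨8, fun n hn => by
    obtain ⟨C, rfl⟩ := h n hn
    exact (Set.ncard_le_card C).trans (by rw [Nat.card_eq_fintype_card]; rfl)⟩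

theorem ch : ∀ S : Finset Q, (∀ a ∈ S, ∀ b ∈ S, a ≠ b → a ≤ b ∨ b ≤ a) → S.card ≤ 2 := by
  decide +kernel

theorem an : ∀ S : Finset Q, (∀ a ∈ S, ∀ b ∈ S, a ≠ b → ¬ a ≤ b) →
    (∀ a ∉ S, ∀ b ∉ S, a ≠ b → ¬ a ≤ b) → S.card < 5 := by
  decide +kernel

theorem height_eq : height Q = 2 := by
  classical
  apply le_antisymm
  · refine csSup_le ⟨0, ∅, IsChain.empty, by simp⟩ ?_
    rintro _ ⟨C, hC, rfl⟩
    rw [Set.ncard_eq_toFinset_card']
    exact ch _ fun a ha b hb h => hC (by simpa using ha) (by simpa using hb) h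
  · refine le_csSup (bdd _ fun n ⟨C, _, h⟩ => ⟨C, h⟩) ⟨{q 0, q 7}, ?_, Set.ncard_pair (by decide)⟩
    exact IsChain.pair (by decide)

theorem d1 : 5 ≤ dk Q 1 := by
  refine le_csSup (bdd _ fun n ⟨A, _, _, h⟩ => ⟨_, h⟩)
    ⟨fun _ => (({q 0, q 1, q 2, q 4, q 5} : Finset Q) : Set Q), fun _ => ?_,
      fun i j h => absurd (Subsingleton.elim i j) h, ?_⟩
  · have : ∀ a ∈ ({q 0, q 1, q 2, q 4, q 5} : Finset Q), ∀ b ∈ ({q 0, q 1, q 2, q 4, q 5} : Finset Q),
        a ≠ b → ¬ a ≤ b := by decide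
    exact fun a ha b hb h => this a ha b hb h
  · rw [Set.iUnion_const, Set.ncard_coe_finset]; rfl

theorem key : ∀ x y : Fin 8, ltb x y = true → ∀ a : Fin 8, ltb a y = true → ∀ b : Fin 8, ltb b y = true →
    a ≠ x → b ≠ x → a ≠ b → ∀ c : Fin 8, ltb x c = true → ∀ d : Fin 8, ltb x d = true →
    c ≠ y → d ≠ y → c = d := by
  intro x y h a ha b hb h1 h2 h3
  have : x = 0 ∨ x = 1 ∨ x = 2 := by
    revert x y a b; decide +kernel
  have h4 : y = 7 := by
    clear this; revert x y a b; decide +kernel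
  subst h4
  rcases this with rfl | rfl | rfl <;> decide

theorem result : ∃ (P : Type) (_ : PartialOrder P), Finite P ∧ ¬ Contains P ∧ ¬ Decomp P := by
  classical
  refine ⟨Q, inferInstance, inferInstance, ?_, ?_⟩
  · rintro ⟨f, hf, h⟩
    have := key (f 1) (f 4) ((h _ _).2 (by unfold P6; decide)) (f 0) ((h _ _).2 (by unfold P6; decide))
      (f 2) ((h _ _).2 (by unfold P6; decide)) (hf.ne (by decide)) (hf.ne (by decide)) (hf.ne (by decide))
      (f 3) ((h _ _).2 (by unfold P6; decide)) (f 5) ((h _ _).2 (by unfold P6; decide))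
      (hf.ne (by decide)) (hf.ne (by decide))
    exact absurd (hf this) (by decide)
  · unfold Decomp
    rw [height_eq]
    rintro ⟨A, h1, -, h3, h4⟩
    have h5 := h4 1 le_rfl (by norm_num)
    have e : (⋃ i : Fin 2, ⋃ _ : i.1 < 1, A i) = A 0 := by
      ext a; simp
    rw [e, Set.ncard_eq_toFinset_card'] at h5
    have h6 : ∀ a, a ∉ A 0 → a ∈ A 1 := fun a ha => by
      have : a ∈ ⋃ i, A i := h3 ▸ Set.mem_univ a
      simpa [Fin.exists_fin_two, ha] using this
    have := an (A 0).toFinset (fun a ha b hb h => h1 0 (by simpa using ha) (by simpa using hb) h)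
      fun a ha b hb h => h1 1 (h6 a (by simpa using ha)) (h6 b (by simpa using hb)) h
    have := d1
    omega

end Pool.Agent.Results.MP_28dfab_co.Counter
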